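import Mathlib
import Pool.Agent.Lib.MP_b164a8_nt.Core

open Polynomial

namespace Pool.Agent.Retired.MP_b164a8_nt.PowersOfTwo

open Pool.Agent.Lib.MP_b164a8_nt

/-- The Fibonacci polynomials. -/
noncomputable def fibPoly : ℕ → ℤ[X]
  | 0 => 0
  | 1 => 1
  | n + 2 => X * fibPoly (n + 1) + fibPoly n

/-- `f` is monogenic: in `K = ℚ[x]/(f)`, with `θ` the class of `x`, the ring `ℤ[θ]` is the ring
of all algebraic integers of `K`. -/
def Monogenic (f : ℤ[X]) : Prop :=
  Algebra.adjoin ℤ {AdjoinRoot.root (f.map (Int.castRingHom ℚ))} =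
    integralClosure ℤ (AdjoinRoot (f.map (Int.castRingHom ℚ)))

theorem result (n : ℕ) (hn : 2 ≤ n) (heven : Even n) :
    (∀ f : ℤ[X], f.Monic → Irreducible (f.map (Int.castRingHom ℚ)) → f ∣ fibPoly n →
      Monogenic f) ↔ ∃ k : ℕ, n = 2 ^ k := by
  have hrec : ∀ (t : ℂ) (m : ℕ), aeval t (fibPoly (m + 2)) =
      t * aeval t (fibPoly (m + 1)) + aeval t (fibPoly m) := by
    intro t m; simp [fibPoly]
  have h0 : ∀ t : ℂ, aeval t (fibPoly 0) = 0 := by intro t; simp [fibPoly]
  have h1 : ∀ t : ℂ, aeval t (fibPoly 1) = 1 := by intro t; simp [fibPoly]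
  constructor
  · intro h
    by_contra hk
    obtain ⟨p, hp, hpn, hodd⟩ : ∃ p : ℕ, p.Prime ∧ p ∣ n ∧ Odd p := by
      rcases Nat.eq_two_pow_or_exists_odd_prime_and_dvd n with h2 | ⟨p, hp, hpn, ho⟩
      · exact absurd h2 hk
      · exact ⟨p, hp, hpn, ho⟩
    have hp2 : 2 < p := by
      have := hp.two_le
      rcases hodd with ⟨k, hk⟩
      omega
    have hp0 : 0 < p := by omega
    have hz := Complex.isPrimitiveRoot_exp p hp0.ne'
    set z := Complex.exp (2 * Real.pi * Complex.I / p) with hzdef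
    have hz0 : z ≠ 0 := hz.ne_zero hp0.ne'
    have hzz : z * z⁻¹ = 1 := mul_inv_cancel₀ hz0
    have hti : IsIntegral ℤ (z - z⁻¹) := (hz.isIntegral hp0).sub (hz.inv.isIntegral hp0)
    have hb := binet (fun m => aeval (z - z⁻¹) (fibPoly m)) z hz0 (h0 _) (h1 _) (hrec _) n
    have hzn : z ^ n = 1 := (hz.pow_eq_one_iff_dvd n).mpr hpn
    rw [heven.neg_pow, inv_pow, hzn, inv_one, sub_self] at hb
    have hne : z + z⁻¹ ≠ 0 := by
      intro h'
      have h4 : z ^ 4 = 1 := by
        linear_combination (z ^ 3 - z) * h' - (z ^ 2 - 1) * hzz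
      have hd : p ∣ 2 ^ 2 := hz.dvd_of_pow_eq_one 4 h4
      have := Nat.le_of_dvd (by norm_num) (hp.dvd_of_dvd_pow hd)
      omega
    have hroot : aeval (z - z⁻¹) (fibPoly n) = 0 := (mul_eq_zero.mp hb).resolve_right hne
    have hirr : Irreducible ((minpoly ℤ (z - z⁻¹)).map (Int.castRingHom ℚ)) := by
      rw [← algebraMap_int_eq, ← minpoly.isIntegrallyClosed_eq_field_fractions' ℚ hti]
      exact minpoly.irreducible hti.tower_top
    have hmon := h _ (minpoly.monic hti) hirr (minpoly.isIntegrallyClosed_dvd hti hroot)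
    have := (bridge hirr (minpoly.aeval ℤ _)).mp hmon
    obtain ⟨b1, b2, b3⟩ := bad hp2 hodd hz
    exact b3 (this.2 z b1 b2)
  · rintro ⟨k, hk⟩ f hf hirr hdvd
    have hdeg : 0 < (f.map (Int.castRingHom ℂ)).degree := by
      rw [hf.degree_map, ← hf.degree_map (Int.castRingHom ℚ)]
      exact degree_pos_of_irreducible hirr
    obtain ⟨t, ht⟩ := Complex.exists_root hdeg
    have ht' : aeval t f = 0 := by
      rw [aeval_def, eval₂_eq_eval_map, algebraMap_int_eq]; exact ht
    have hti : IsIntegral ℤ t := ⟨f, hf, ht'⟩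
    have hF : aeval t (fibPoly n) = 0 := aeval_eq_zero_of_dvd_aeval_eq_zero hdvd ht'
    refine (bridge hirr ht').mpr ⟨hti, ?_⟩
    obtain ⟨s, hs⟩ := IsAlgClosed.exists_pow_nat_eq (t ^ 2 + 4) (n := 2) (by norm_num)
    set w : ℂ := (t + s) / 2 with hw
    have hww : w * (w - t) = 1 := by
      rw [hw]; linear_combination (1 / 4) * hs
    have hw0 : w ≠ 0 := left_ne_zero_of_mul_eq_one hww
    have hinv : w⁻¹ = w - t := inv_eq_of_mul_eq_one_right hww
    have htw : t = w - w⁻¹ := by rw [hinv]; ring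
    clear_value w
    subst htw
    have hw2 : w * w ≠ -1 := by
      intro h2
      have := binet_deg (fun m => aeval (w - w⁻¹) (fibPoly m)) w h2 (h0 _) (h1 _) (hrec _) n
      simp only [hF, zero_mul] at this
      have hn0 : (n : ℂ) ≠ 0 := by exact_mod_cast (by omega : n ≠ 0)
      exact mul_ne_zero hn0 (pow_ne_zero _ hw0) this.symm
    have hb := binet (fun m => aeval (w - w⁻¹) (fibPoly m)) w hw0 (h0 _) (h1 _) (hrec _) n
    simp only [hF, zero_mul] at hb
    rw [heven.neg_pow, inv_pow] at hb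
    have hpow : w ^ (2 ^ (k + 1)) = 1 := by
      have hwn : w ^ n ≠ 0 := pow_ne_zero _ hw0
      have : w ^ n * (w ^ n)⁻¹ = 1 := mul_inv_cancel₀ hwn
      rw [pow_succ, ← hk, pow_mul]
      linear_combination this - (w ^ n) * hb
    have hord : orderOf w ∣ 2 ^ (k + 1) := orderOf_dvd_of_pow_eq_one hpow
    obtain ⟨j, -, hj⟩ := (Nat.dvd_prime_pow Nat.prime_two).mp hord
    have hprim : IsPrimitiveRoot w (2 ^ j) := hj ▸ IsPrimitiveRoot.orderOf w
    by_cases hj2 : 2 ≤ j
    · intro x hx hi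
      exact good (by positivity) (pow_dvd_pow 2 hj2) hprim hw2 hx hi
    · have hsq : w ^ 2 = 1 := by
        have : 2 ^ j ∣ 2 ^ 1 := pow_dvd_pow 2 (by omega)
        exact (hprim.pow_eq_one_iff_dvd 2).mpr (by simpa using this)
      have hz : w - w⁻¹ = 0 := by
        rw [sub_eq_zero]
        exact (inv_eq_of_mul_eq_one_right (by rw [← hsq]; ring)).symm
      rw [hz]
      intro x hx hi
      exact zero_case hx hi

end Pool.Agent.Retired.MP_b164a8_nt.PowersOfTwo
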